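import Mathlib

set_option autoImplicit false

namespace Pool.Agent.Results.MP_b542c4_co.RationalThreeAstral

open Complex

/-- The `(n_4)` axioms for an incidence relation `I p l` (point `p` lies on line `l`). -/
def IsConfig4 {n : ℕ} (I : Fin n → Fin n → Prop) : Prop :=
  (∀ p, {l | I p l}.ncard = 4) ∧ (∀ l, {p | I p l}.ncard = 4) ∧
    ∀ p q l m, p ≠ q → I p l → I q l → I p m → I q m → l = m

/-- Straight lines of the Euclidean plane, which is modelled by `ℂ` with its usual metric. -/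
def IsLine (S : Set ℂ) : Prop :=
  ∃ a b c : ℝ, (a ≠ 0 ∨ b ≠ 0) ∧ S = {z | a * z.re + b * z.im = c}

/-- Straight lines of the rational plane. -/
def IsLineQ (S : Set (ℚ × ℚ)) : Prop :=
  ∃ a b c : ℚ, (a ≠ 0 ∨ b ≠ 0) ∧ S = {z | a * z.1 + b * z.2 = c}

/-- A geometric realization in the Euclidean plane. -/
def IsRealization {n : ℕ} (I : Fin n → Fin n → Prop) (P : Fin n → ℂ) (L : Fin n → Set ℂ) : Prop :=
  Function.Injective P ∧ Function.Injective L ∧ (∀ l, IsLine (L l)) ∧ ∀ p l, P p ∈ L l ↔ I p l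

/-- A geometric realization in the rational plane. -/
def IsRationalRealization {n : ℕ} (I : Fin n → Fin n → Prop) (P : Fin n → ℚ × ℚ)
    (L : Fin n → Set (ℚ × ℚ)) : Prop :=
  Function.Injective P ∧ Function.Injective L ∧ (∀ l, IsLineQ (L l)) ∧ ∀ p l, P p ∈ L l ↔ I p l

/-- An isometry of the plane mapping the point set onto itself and the line set onto itself. -/
def IsSym {n : ℕ} (P : Fin n → ℂ) (L : Fin n → Set ℂ) (φ : ℂ ≃ᵢ ℂ) : Prop :=
  φ '' Set.range P = Set.range P ∧ (fun S => φ '' S) '' Set.range L = Set.range L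

/-- The rotation factor `exp (2πi/m)`. -/
noncomputable def zeta (m : ℕ) : ℂ := Complex.exp (2 * Real.pi * Complex.I / m)

/-- A `k`-astral 4-configuration with `m`-fold symmetry, in standard position: the symmetries are
exactly the `2m` elements `z ↦ ζ^j z`, `z ↦ ζ^j conj z` of the dihedral group `d_m`; `oP`, `oL` label
the `k` point orbits and the `k` line orbits, each of size `m`; each point orbit is the vertex set of
a regular `m`-gon; each point (line) is incident with two lines (points) from each of two orbits. -/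
def IsAstral (k m : ℕ) {n : ℕ} (I : Fin n → Fin n → Prop) (P : Fin n → ℂ)
    (L : Fin n → Set ℂ) : Prop :=
  n = k * m ∧ IsRealization I P L ∧
  (∀ φ : ℂ ≃ᵢ ℂ, IsSym P L φ ↔ ∃ j < m, (∀ z, φ z = zeta m ^ j * z) ∨
    (∀ z, φ z = zeta m ^ j * (starRingEnd ℂ) z)) ∧
  ∃ oP oL : Fin n → Fin k,
    (∀ p q, oP p = oP q ↔ ∃ φ, IsSym P L φ ∧ φ (P p) = P q) ∧
    (∀ l l', oL l = oL l' ↔ ∃ φ, IsSym P L φ ∧ φ '' L l = L l') ∧
    (∀ a, {p | oP p = a}.ncard = m) ∧ (∀ a, {l | oL l = a}.ncard = m) ∧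
    (∀ a, ∃ w : ℂ, w ≠ 0 ∧ P '' {p | oP p = a} = {z | ∃ j < m, z = w * zeta m ^ j}) ∧
    (∀ p, ∃ a b, a ≠ b ∧ {l | I p l ∧ oL l = a}.ncard = 2 ∧ {l | I p l ∧ oL l = b}.ncard = 2) ∧
    (∀ l, ∃ a b, a ≠ b ∧ {p | I p l ∧ oP p = a}.ncard = 2 ∧ {p | I p l ∧ oP p = b}.ncard = 2)

def mask : Fin 24 → ℕ := ![8454177, 196674, 393348, 786441, 1572882, 3145764, 6291528, 12583056, 33089, 898, 1541, 3082, 6164, 12328, 24656, 49312, 4268288, 8536576, 361472, 657664, 1315328, 2630656, 5261312, 10522624]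
def inc (p l : Fin 24) : Prop := (mask p).testBit l = true
instance (p l : Fin 24) : Decidable (inc p l) := by unfold inc; infer_instance

def QX : Fin 24 → ℤ := ![2, 5670, 700, 1260, 12, 630, 210, -630, 6930, -2772, 3402, -4830, 1260, 2898, -658, 1890, 1890, -3150, -1260, 3780, -6300, -420, -70, -630]
def QY : Fin 24 → ℤ := ![4, 4900, 784, 1225, 16, 196, 4900, 196, 4900, -3136, 3724, -4900, 1568, 4900, -980, 2548, 12740, -5684, -980, 3920, -8624, 980, -196, -2156]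
def QZ : Fin 24 → ℤ := ![1, 6561, 625, 1296, 9, 2025, 9, 2025, 8073, -2565, 3285, -4959, 675, 2889, -741, 2925, -4239, -585, -1521, 3699, -4185, -1503, 195, -1755]
def QA : Fin 24 → ℤ := ![107, -534, 1610, -2625, 138, -104, 5880, -910, 3066, -5950, -1764, 6258, 294, -14280, -1092, 728, -232, -4018, -1883, -249, -222, -3192, -3108, -76]
def QB : Fin 24 → ℤ := ![-36, 243, -1125, 108, -135, 45, -243, 1125, -1107, 3015, 747, -4185, -405, 4401, 585, 585, 81, 2025, 900, 108, 135, 135, 135, 45]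
def QC : Fin 24 → ℤ := ![-70, 280, -392, 2450, 56, 28, -4900, -392, -1960, 2744, 980, -1960, 392, 6860, 196, -980, 140, 1960, 980, 140, 56, 980, -980, -28]

lemma qtab : ∀ p l : Fin 24, QA l * QX p + QB l * QY p + QC l * QZ p = 0 ↔ inc p l := by
  decide +kernel
lemma qZ : ∀ p : Fin 24, QZ p ≠ 0 := by decide +kernel
lemma qAB : ∀ l : Fin 24, QA l ≠ 0 ∨ QB l ≠ 0 := by decide +kernel
lemma sepP : ∀ p q : Fin 24, (∀ l, inc p l ↔ inc q l) → p = q := by decide +kernel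
lemma sepL : ∀ l m : Fin 24, (∀ p, inc p l ↔ inc p m) → l = m := by decide +kernel

lemma rational : ∃ P L, IsRationalRealization inc P L := by
  let P : Fin 24 → ℚ × ℚ := fun p => ((QX p : ℚ) / QZ p, (QY p : ℚ) / QZ p)
  let L : Fin 24 → Set (ℚ × ℚ) := fun l => {x | (QA l : ℚ) * x.1 + (QB l : ℚ) * x.2 = -(QC l : ℚ)}
  have key : ∀ p l, P p ∈ L l ↔ inc p l := by
    intro p l
    rw [← qtab]
    have hz : (QZ p : ℚ) ≠ 0 := by exact_mod_cast qZ p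
    change (QA l : ℚ) * ((QX p : ℚ) / QZ p) + (QB l : ℚ) * ((QY p : ℚ) / QZ p) = -(QC l : ℚ) ↔ _
    constructor
    · intro h
      field_simp at h
      have : (QA l : ℚ) * QX p + QB l * QY p + QC l * QZ p = 0 := by linarith
      exact_mod_cast this
    · intro h
      have : (QA l : ℚ) * QX p + QB l * QY p + QC l * QZ p = 0 := by exact_mod_cast h
      field_simp
      linarith
  refine ⟨P, L, ?_, ?_, ?_, key⟩
  · intro p q h
    exact sepP p q fun l => by rw [← key, ← key, h]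
  · intro l m h
    exact sepL l m fun p => by rw [← key, ← key, h]
  · intro l
    refine ⟨QA l, QB l, -(QC l : ℚ), ?_, rfl⟩
    rcases qAB l with h | h
    · left; exact_mod_cast h
    · right; exact_mod_cast h

def X : Fin 24 → ℤ√2 := ![⟨2, 0⟩, ⟨0, 1⟩, ⟨0, 0⟩, ⟨0, -1⟩, ⟨-2, 0⟩, ⟨0, -1⟩, ⟨0, 0⟩, ⟨0, 1⟩, ⟨1, 0⟩, ⟨-1, 1⟩, ⟨1, -1⟩, ⟨-1, 0⟩, ⟨-1, 0⟩, ⟨1, -1⟩, ⟨-1, 1⟩, ⟨1, 0⟩, ⟨1, 1⟩, ⟨1, 1⟩, ⟨1, 0⟩, ⟨-1, 0⟩, ⟨-1, -1⟩, ⟨-1, -1⟩, ⟨-1, 0⟩, ⟨1, 0⟩]
def Y : Fin 24 → ℤ√2 := ![⟨0, 0⟩, ⟨0, 1⟩, ⟨2, 0⟩, ⟨0, 1⟩, ⟨0, 0⟩, ⟨0, -1⟩, ⟨-2, 0⟩, ⟨0, -1⟩, ⟨-1, 1⟩, ⟨1, 0⟩, ⟨1, 0⟩, ⟨-1, 1⟩, ⟨1, -1⟩, ⟨-1, 0⟩, ⟨-1, 0⟩, ⟨1, -1⟩, ⟨-1, 0⟩, ⟨1, 0⟩, ⟨1, 1⟩, ⟨1, 1⟩, ⟨1, 0⟩, ⟨-1, 0⟩, ⟨-1, -1⟩, ⟨-1, -1⟩]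
def A : Fin 24 → ℤ√2 := ![⟨-1, 0⟩, ⟨1, 0⟩, ⟨1, 1⟩, ⟨1, 1⟩, ⟨1, 0⟩, ⟨-1, 0⟩, ⟨-1, -1⟩, ⟨-1, -1⟩, ⟨0, -1⟩, ⟨0, 0⟩, ⟨0, 1⟩, ⟨2, 0⟩, ⟨0, 1⟩, ⟨0, 0⟩, ⟨0, -1⟩, ⟨-2, 0⟩, ⟨-1, 0⟩, ⟨1, -1⟩, ⟨-1, 1⟩, ⟨1, 0⟩, ⟨1, 0⟩, ⟨-1, 1⟩, ⟨1, -1⟩, ⟨-1, 0⟩]
def B : Fin 24 → ℤ√2 := ![⟨-1, -1⟩, ⟨-1, -1⟩, ⟨-1, 0⟩, ⟨1, 0⟩, ⟨1, 1⟩, ⟨1, 1⟩, ⟨1, 0⟩, ⟨-1, 0⟩, ⟨0, -1⟩, ⟨-2, 0⟩, ⟨0, -1⟩, ⟨0, 0⟩, ⟨0, 1⟩, ⟨2, 0⟩, ⟨0, 1⟩, ⟨0, 0⟩, ⟨1, -1⟩, ⟨-1, 0⟩, ⟨-1, 0⟩, ⟨1, -1⟩, ⟨-1, 1⟩, ⟨1, 0⟩, ⟨1, 0⟩, ⟨-1, 1⟩]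
def rho : Fin 24 → Fin 24 := ![1, 2, 3, 4, 5, 6, 7, 0, 9, 10, 11, 12, 13, 14, 15, 8, 17, 18, 19, 20, 21, 22, 23, 16]
def mu : Fin 24 → Fin 24 := ![0, 7, 6, 5, 4, 3, 2, 1, 15, 14, 13, 12, 11, 10, 9, 8, 17, 16, 23, 22, 21, 20, 19, 18]
def nu : Fin 24 → Fin 24 := ![5, 4, 3, 2, 1, 0, 7, 6, 14, 13, 12, 11, 10, 9, 8, 15, 23, 22, 21, 20, 19, 18, 17, 16]
def o : Fin 24 → Fin 3 := ![0, 0, 0, 0, 0, 0, 0, 0, 1, 1, 1, 1, 1, 1, 1, 1, 2, 2, 2, 2, 2, 2, 2, 2]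
def r2 : ℤ√2 := ⟨0, 1⟩

noncomputable def t : ℤ√2 →+* ℝ := Zsqrtd.toReal (by norm_num : (0 : ℤ) ≤ 2)

lemma t_inj : Function.Injective t := by
  apply Zsqrtd.toReal_injective
  intro n h
  have h1 : n ≤ 1 := by nlinarith
  have h2 : -1 ≤ n := by nlinarith
  interval_cases n <;> simp at h

lemma t_r2 : t r2 = √2 := by simp [t, r2, Zsqrtd.toReal_apply]

lemma zeta8 : zeta 8 = ⟨√2 / 2, √2 / 2⟩ := by
  have : (2 * Real.pi * Complex.I / ((8 : ℕ) : ℂ) : ℂ) = ((Real.pi / 4 : ℝ) : ℂ) * Complex.I := by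
    push_cast; ring
  rw [zeta, this]
  apply Complex.ext
  · rw [Complex.exp_ofReal_mul_I_re, Real.cos_pi_div_four]
  · rw [Complex.exp_ofReal_mul_I_im, Real.sin_pi_div_four]

noncomputable def P (p : Fin 24) : ℂ := ⟨t (X p) / 2, t (Y p) / 2⟩
noncomputable def L (l : Fin 24) : Set ℂ := {z | t (A l) * z.re + t (B l) * z.im = -1}

lemma tab : ∀ p l : Fin 24, A l * X p + B l * Y p + 2 = 0 ↔ inc p l := by decide +kernel
lemma tabAB : ∀ l : Fin 24, A l ≠ 0 ∨ B l ≠ 0 := by decide +kernel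
lemma tabR : ∀ p : Fin 24, 2 * X (rho p) = r2 * (X p - Y p) ∧ 2 * Y (rho p) = r2 * (X p + Y p) ∧
    2 * A p = r2 * (A (rho p) + B (rho p)) ∧ 2 * B p = r2 * (B (rho p) - A (rho p)) := by
  decide +kernel
lemma tabM : ∀ p : Fin 24, X (mu p) = X p ∧ Y (mu p) = -Y p ∧ A (nu p) = A p ∧
    B (nu p) = -B p := by decide +kernel

lemma key (p l : Fin 24) : P p ∈ L l ↔ inc p l := by
  rw [← tab, ← t_inj.eq_iff]
  change t (A l) * (t (X p) / 2) + t (B l) * (t (Y p) / 2) = -1 ↔ _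
  simp only [map_add, map_mul, map_ofNat, map_zero]
  constructor <;> intro h <;> linarith

lemma real : IsRealization inc P L := by
  refine ⟨?_, ?_, ?_, key⟩
  · intro p q h
    exact sepP p q fun l => by rw [← key, ← key, h]
  · intro l m h
    exact sepL l m fun p => by rw [← key, ← key, h]
  · intro l
    refine ⟨t (A l), t (B l), -1, ?_, rfl⟩
    rcases tabAB l with h | h
    · left; exact fun e => h (t_inj (by simpa using e))
    · right; exact fun e => h (t_inj (by simpa using e))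

lemma rotP (p : Fin 24) : zeta 8 * P p = P (rho p) := by
  obtain ⟨h1, h2, -, -⟩ := tabR p
  have e1 := congrArg t h1
  have e2 := congrArg t h2
  simp only [map_add, map_sub, map_mul, map_ofNat, t_r2] at e1 e2
  rw [zeta8]
  apply Complex.ext
  · simp only [P, mul_re]; linarith
  · simp only [P, mul_im]; linarith

lemma rotL (l : Fin 24) (z : ℂ) : z ∈ L l ↔ zeta 8 * z ∈ L (rho l) := by
  obtain ⟨-, -, h1, h2⟩ := tabR l
  have e1 := congrArg t h1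
  have e2 := congrArg t h2
  simp only [map_add, map_sub, map_mul, map_ofNat, t_r2] at e1 e2
  rw [zeta8]
  change t (A l) * z.re + t (B l) * z.im = -1 ↔ t (A (rho l)) * _ + t (B (rho l)) * _ = -1
  simp only [mul_re, mul_im]
  constructor <;> intro h
  · linear_combination h - z.re / 2 * e1 - z.im / 2 * e2
  · linear_combination h + z.re / 2 * e1 + z.im / 2 * e2

lemma rotPj (j : ℕ) (p : Fin 24) : zeta 8 ^ j * P p = P (rho^[j] p) := by
  induction j with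
  | zero => simp
  | succ j ih => rw [pow_succ', mul_assoc, ih, rotP, Function.iterate_succ_apply']

lemma rotLj (j : ℕ) (l : Fin 24) (z : ℂ) : z ∈ L l ↔ zeta 8 ^ j * z ∈ L (rho^[j] l) := by
  induction j with
  | zero => simp
  | succ j ih => rw [pow_succ', mul_assoc, ih, rotL, Function.iterate_succ_apply']

lemma conjP (p : Fin 24) : (starRingEnd ℂ) (P p) = P (mu p) := by
  obtain ⟨h1, h2, -, -⟩ := tabM p
  apply Complex.ext
  · simp only [P, conj_re, h1]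
  · simp only [P, conj_im, h2, map_neg]; ring

lemma conjL (l : Fin 24) (z : ℂ) : z ∈ L l ↔ (starRingEnd ℂ) z ∈ L (nu l) := by
  obtain ⟨-, -, h1, h2⟩ := tabM l
  change t (A l) * z.re + t (B l) * z.im = -1 ↔ t (A (nu l)) * _ + t (B (nu l)) * _ = -1
  simp only [conj_re, conj_im, h1, h2, map_neg]
  constructor <;> intro h <;> linarith

lemma img (φ : ℂ ≃ᵢ ℂ) (S S' : Set ℂ) (h : ∀ z, z ∈ S ↔ φ z ∈ S') : φ '' S = S' := by
  ext w
  constructor
  · rintro ⟨z, hz, rfl⟩; exact (h z).1 hz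
  · intro hw
    exact ⟨φ.symm w, (h _).2 (by simpa using hw), by simp⟩

lemma sym_of (φ : ℂ ≃ᵢ ℂ) (σ τ : Fin 24 → Fin 24) (hσ : Function.Surjective σ)
    (hτ : Function.Surjective τ) (h1 : ∀ p, φ (P p) = P (σ p)) (h2 : ∀ l, φ '' L l = L (τ l)) :
    IsSym P L φ := by
  constructor
  · ext w
    constructor
    · rintro ⟨_, ⟨p, rfl⟩, rfl⟩; exact ⟨σ p, (h1 p).symm⟩
    · rintro ⟨q, rfl⟩
      obtain ⟨p, rfl⟩ := hσ q
      exact ⟨_, ⟨p, rfl⟩, h1 p⟩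
  · ext w
    constructor
    · rintro ⟨_, ⟨p, rfl⟩, rfl⟩; exact ⟨τ p, (h2 p).symm⟩
    · rintro ⟨q, rfl⟩
      obtain ⟨p, rfl⟩ := hτ q
      exact ⟨_, ⟨p, rfl⟩, h2 p⟩

lemma sR : Function.Surjective rho := by decide +kernel
lemma sM : Function.Surjective mu := by decide +kernel
lemma sN : Function.Surjective nu := by decide +kernel

lemma imgR (φ : ℂ ≃ᵢ ℂ) (j : ℕ) (h : ∀ z, φ z = zeta 8 ^ j * z) (l : Fin 24) :
    φ '' L l = L (rho^[j] l) := img _ _ _ fun z => by rw [h]; exact rotLj j l z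

lemma imgM (φ : ℂ ≃ᵢ ℂ) (j : ℕ) (h : ∀ z, φ z = zeta 8 ^ j * (starRingEnd ℂ) z) (l : Fin 24) :
    φ '' L l = L (rho^[j] (nu l)) := img _ _ _ fun z => by rw [h, conjL]; exact rotLj j _ _

lemma half : ∀ p : Fin 24, X (rho^[4] p) = -X p ∧ Y (rho^[4] p) = -Y p := by decide +kernel
lemma ring0 : ∀ q : Fin 24, X q * X q + Y q * Y q = 4 → ∃ j < 8, rho^[j] 0 = q := by
  decide +kernel

lemma sumP : ∑ p, P p = 0 := by
  have hb : Function.Bijective (rho^[4]) := Finite.surjective_iff_bijective.1 (sR.iterate 4)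
  have h1 := hb.sum_comp P
  have h2 : ∀ p, P (rho^[4] p) = -P p := fun p => by
    apply Complex.ext
    · simp only [P, (half p).1, map_neg, neg_re]; ring
    · simp only [P, (half p).2, map_neg, neg_im]; ring
  simp only [h2, Finset.sum_neg_distrib] at h1
  linear_combination (-1 / 2 : ℂ) * h1

lemma P0 : P 0 = 1 := by
  have h1 : X 0 = 2 := by decide
  have h2 : Y 0 = 0 := by decide
  apply Complex.ext <;> simp [P, h1, h2, map_ofNat]

lemma classify (φ : ℂ ≃ᵢ ℂ) : IsSym P L φ ↔ ∃ j < 8, (∀ z, φ z = zeta 8 ^ j * z) ∨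
    (∀ z, φ z = zeta 8 ^ j * (starRingEnd ℂ) z) := by
  constructor
  · rintro ⟨h1, -⟩
    have e1 : ∀ p, ∃ q, P q = φ (P p) := fun p => by
      have : φ (P p) ∈ Set.range P := h1 ▸ Set.mem_image_of_mem φ ⟨p, rfl⟩
      exact this
    choose σ hσ using e1
    have hi : Function.Injective σ := fun p q e =>
      real.1 (φ.injective (by rw [← hσ, ← hσ, e]))
    have hb : Function.Bijective σ := Finite.injective_iff_bijective.1 hi
    have h0 : φ 0 = 0 := by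
      have s1 := hb.sum_comp P
      have s2 : ∑ p, φ.toRealLinearIsometryEquiv (P p) = 0 := by
        rw [← map_sum, sumP, map_zero]
      simp only [IsometryEquiv.toRealLinearIsometryEquiv_apply, Finset.sum_sub_distrib, ← hσ, s1,
        sumP, Finset.sum_const, Finset.card_univ, Fintype.card_fin, nsmul_eq_mul] at s2
      push_cast at s2
      linear_combination (-1 / 24 : ℂ) * s2
    have hg : ∀ z, φ z = φ.toRealLinearIsometryEquiv z := fun z => by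
      rw [IsometryEquiv.toRealLinearIsometryEquiv_apply, h0, sub_zero]
    obtain ⟨a, ha⟩ := linear_isometry_complex φ.toRealLinearIsometryEquiv
    have ha1 : P (σ 0) = a := by
      rw [hσ, hg, P0]
      rcases ha with ha | ha <;> simp [ha]
    have hn : normSq (P (σ 0)) = 1 := by rw [ha1]; simp
    have h4 : X (σ 0) * X (σ 0) + Y (σ 0) * Y (σ 0) = 4 := by
      apply t_inj
      simp only [P, normSq_mk] at hn
      simp only [map_add, map_mul, map_ofNat]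
      linarith
    obtain ⟨j, hj, e⟩ := ring0 _ h4
    have haz : (a : ℂ) = zeta 8 ^ j := by rw [← ha1, ← e, ← rotPj, P0, mul_one]
    refine ⟨j, hj, ?_⟩
    rcases ha with ha | ha
    · left; intro z; rw [hg, ha, ← haz]; simp
    · right; intro z; rw [hg, ha, ← haz]; simp
  · rintro ⟨j, -, h | h⟩
    · exact sym_of φ _ _ (sR.iterate j) (sR.iterate j) (fun p => by rw [h, rotPj]) (imgR φ j h)
    · exact sym_of φ (rho^[j] ∘ mu) (rho^[j] ∘ nu) ((sR.iterate j).comp sM) ((sR.iterate j).comp sN)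
        (fun p => by rw [h, conjP, rotPj]; rfl) (imgM φ j h)

lemma exR (j : ℕ) : ∃ φ : ℂ ≃ᵢ ℂ, ∀ z, φ z = zeta 8 ^ j * z := by
  have : ‖zeta 8 ^ j‖ = 1 := by
    rw [norm_pow, Complex.norm_eq_sqrt_sq_add_sq, zeta8]
    have : (√2 / 2 : ℝ) ^ 2 + (√2 / 2) ^ 2 = 1 := by
      have := Real.sq_sqrt (show (0 : ℝ) ≤ 2 by norm_num)
      nlinarith
    simp only [this, Real.sqrt_one, one_pow]
  exact ⟨(rotation ⟨zeta 8 ^ j, by simpa [Submonoid.unitSphere] using this⟩).toIsometryEquiv,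
    fun z => rfl⟩

lemma orb1 : ∀ p q : Fin 24, o p = o q → ∃ j < 8, rho^[j] p = q := by decide +kernel
lemma orb2 : ∀ j < 8, ∀ p : Fin 24, o p = o (rho^[j] p) ∧ o p = o (rho^[j] (mu p)) ∧
    o p = o (rho^[j] (nu p)) := by decide +kernel

lemma nc (s : Fin 24 → Prop) [DecidablePred s] :
    {l | s l}.ncard = (Finset.univ.filter s).card := by
  rw [← Set.ncard_coe_finset]; congr 1; ext; simp

lemma astral : IsAstral 3 8 inc P L := by
  refine ⟨rfl, real, classify, o, o, ?_, ?_, ?_, ?_, ?_, ?_, ?_⟩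
  · intro p q
    constructor
    · intro h
      obtain ⟨j, hj, rfl⟩ := orb1 p q h
      obtain ⟨φ, hφ⟩ := exR j
      exact ⟨φ, (classify φ).2 ⟨j, hj, Or.inl hφ⟩, by rw [hφ, rotPj]⟩
    · rintro ⟨φ, hφ, e⟩
      obtain ⟨j, hj, h | h⟩ := (classify φ).1 hφ
      · rw [h, rotPj] at e
        rw [← real.1 e]; exact (orb2 j hj p).1
      · rw [h, conjP, rotPj] at e
        rw [← real.1 e]; exact (orb2 j hj p).2.1
  · intro p q
    constructor
    · intro h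
      obtain ⟨j, hj, rfl⟩ := orb1 p q h
      obtain ⟨φ, hφ⟩ := exR j
      exact ⟨φ, (classify φ).2 ⟨j, hj, Or.inl hφ⟩, imgR φ j hφ p⟩
    · rintro ⟨φ, hφ, e⟩
      obtain ⟨j, hj, h | h⟩ := (classify φ).1 hφ
      · rw [imgR φ j h] at e
        rw [← real.2.1 e]; exact (orb2 j hj p).1
      · rw [imgM φ j h] at e
        rw [← real.2.1 e]; exact (orb2 j hj p).2.2
  · simp only [nc]; decide +kernel
  · simp only [nc]; decide +kernel
  · intro a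
    obtain ⟨b, hb, hb'⟩ : ∃ b, o b = a ∧ X b ≠ 0 := by revert a; decide +kernel
    refine ⟨P b, ?_, ?_⟩
    · intro e
      have := congrArg Complex.re e
      simp only [P, zero_re] at this
      exact hb' (t_inj (by rw [map_zero]; linarith))
    · ext z
      constructor
      · rintro ⟨p, hp, rfl⟩
        obtain ⟨j, hj, rfl⟩ := orb1 b p (hb.trans hp.symm)
        exact ⟨j, hj, by rw [mul_comm, rotPj]⟩
      · rintro ⟨j, hj, rfl⟩
        exact ⟨rho^[j] b, (orb2 j hj b).1.symm.trans hb, by rw [mul_comm, rotPj]⟩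
  · simp only [nc]; decide +kernel
  · simp only [nc]; decide +kernel

/-- There is a `k`-astral 4-configuration (`k = 3`, `m = 8`) whose underlying combinatorial
configuration has a rational realization. -/
theorem result : ∃ (k m n : ℕ) (I : Fin n → Fin n → Prop) (P : Fin n → ℂ) (L : Fin n → Set ℂ),
    2 ≤ k ∧ 2 ≤ m ∧ IsConfig4 I ∧ IsAstral k m I P L ∧
      ∃ P' L', IsRationalRealization I P' L' := by
  refine ⟨3, 8, 24, inc, P, L, by norm_num, by norm_num, ⟨?_, ?_, ?_⟩, astral, rational⟩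
  · simp only [nc]; decide +kernel
  · simp only [nc]; decide +kernel
  · have : ∀ p q : Fin 24, p ≠ q → ∀ l, inc p l → inc q l → ∀ m, inc p m → inc q m → l = m := by
      decide +kernel
    exact fun p q l m h h1 h2 h3 h4 => this p q h l h1 h2 m h3 h4

end Pool.Agent.Results.MP_b542c4_co.RationalThreeAstral
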